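import Pool.Agent.Helper36_X1.Stmts1

/-!
# Squad X1, module BRU: the Bruhat decomposition
-/

open scoped BigOperators

noncomputable section

namespace Pool.Agent.PP.X1.H55

open Pool.Agent.PP.X1 RGD

variable {ℓ : ℕ} {G : Type} [Group G] (R : RGD ℓ G)

theorem X_inv_nw {w : List (Fin R.r)} {b : R.E} (hb : b ∈ R.Φ) {x : G} (hx : x ∈ R.X b) :
    (R.nw w)⁻¹ * x * R.nw w ∈ R.X (R.sw w.reverse b) := by
  have h1 : R.sw w.reverse b ∈ R.Φ := R.sw_mem hb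
  rw [← R.X_nw (w := w) h1, R.sw_sw_reverse]
  have h2 : R.nw w * ((R.nw w)⁻¹ * x * R.nw w) * (R.nw w)⁻¹ = x := by group
  rwa [h2]

theorem T_inv_nw {w : List (Fin R.r)} {t : G} (ht : t ∈ R.T) :
    (R.nw w)⁻¹ * t * R.nw w ∈ R.T := by
  rw [← R.T_nw (w := w)]
  have h2 : R.nw w * ((R.nw w)⁻¹ * t * R.nw w) * (R.nw w)⁻¹ = t := by group
  rwa [h2]

/-- the multiplication of the cells -/
theorem cell_mul (hpel : PelStmt) (i : Fin R.r) (w : List (Fin R.r)) :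
    ∀ b ∈ R.B, ∃ c ∈ R.B, ∃ d ∈ R.B, R.n i * b * R.nw w = c * R.nw (i :: w) * d ∨
      (R.sw w.reverse (R.a i) ∈ R.neg ∧ R.n i * b * R.nw w = c * R.nw w * d) := by
  intro b hb
  obtain ⟨-, p2, -, -, p5, p6, -⟩ := hpel ℓ G R i
  obtain ⟨u, hu, t, ht, rfl⟩ := R.mem_B.mp hb
  have hclo : R.Clo R.pos := by
    refine ⟨R.pos_sub, ?_, ?_⟩
    · intro b hb c hc hbc
      exact ⟨hbc, R.nn_smul (by linarith) hb.2⟩
    · intro b hb c hc p q hp hq h
      exact ⟨h, R.nn_add (R.nn_smul (by linarith) hb.2) (R.nn_smul (by linarith) hc.2)⟩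
  obtain ⟨x₁, hx₁, y₁, hy₁, hu₁⟩ := p2 R.pos hclo le_rfl u⁻¹ (R.U.inv_mem hu)
  have hu2 : u = y₁⁻¹ * x₁⁻¹ := by rw [← mul_inv_rev, ← hu₁, inv_inv]
  set x := x₁⁻¹ with hx
  set y := y₁⁻¹ with hy
  have hxX : x ∈ R.X (R.a i) := (R.X (R.a i)).inv_mem (p6 _ hx₁)
  have hyX : y ∈ R.gp (R.pos \ R.ray i) := Subgroup.inv_mem _ hy₁
  have hy' : R.n i * y * (R.n i)⁻¹ ∈ R.B := by
    apply R.U_le_B
    exact R.gp_mono Set.sdiff_subset ((p5 y).mpr hyX)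
  set t' := (R.nw w)⁻¹ * t * R.nw w with ht'
  have ht'T : t' ∈ R.T := T_inv_nw R ht
  have ht'B : t' ∈ R.B := R.T_le_B ht'T
  have hmain : R.n i * (u * t) * R.nw w =
      (R.n i * y * (R.n i)⁻¹) * (R.n i * x * R.nw w) * t' := by
    rw [hu2, ht']
    group
  rcases R.pos_or_neg (R.sw_mem (w := w.reverse) (R.mem i)) with hp | hn
  · -- no descent
    have hx' : (R.nw w)⁻¹ * x * R.nw w ∈ R.B :=
      R.U_le_B (R.X_le_U hp (X_inv_nw R (R.mem i) hxX))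
    refine ⟨_, hy', (R.nw w)⁻¹ * x * R.nw w * t', R.B.mul_mem hx' ht'B, Or.inl ?_⟩
    rw [hmain, nw_cons]
    group
  · by_cases hx1 : x = 1
    · refine ⟨_, hy', t', ht'B, Or.inl ?_⟩
      rw [hmain, nw_cons, hx1]
      group
    · obtain ⟨yy, hyy, z, hz, t₁, ht₁, hcell⟩ := R.cell i x hxX hx1
      have hneg : R.sw (i :: w).reverse (R.a i) ∈ R.pos := by
        have h1 : R.sw (i :: w).reverse (R.a i) = -R.sw w.reverse (R.a i) := by
          rw [List.reverse_cons, sw_append, sw_cons, sw_nil, s_self, sw_neg]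
        refine ⟨R.sw_mem (R.mem i), ?_⟩
        rw [h1]
        exact hn.2
      have hz' : (R.nw (i :: w))⁻¹ * z * R.nw (i :: w) ∈ R.B :=
        R.U_le_B (R.X_le_U hneg (X_inv_nw R (R.mem i) hz))
      have ht2 : R.n i * t₁ * R.n i ∈ R.T := by
        have h1 : R.n i * t₁ * R.n i = (R.n i * t₁ * (R.n i)⁻¹) * (R.n i * R.n i) := by group
        rw [h1]
        exact R.T.mul_mem (R.nT i t₁ ht₁) (R.nn i)
      have hyB : yy ∈ R.B := R.U_le_B (R.X_le_U (R.a_pos i) hyy)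
      refine ⟨(R.n i * y * (R.n i)⁻¹) * yy * (R.n i * t₁ * R.n i),
        R.B.mul_mem (R.B.mul_mem hy' hyB) (R.T_le_B ht2),
        (R.nw (i :: w))⁻¹ * z * R.nw (i :: w) * t', R.B.mul_mem hz' ht'B, Or.inr ⟨hn, ?_⟩⟩
      rw [hmain]
      have h2 : R.n i * x * R.nw w = (R.n i * x * (R.n i)⁻¹) * (R.n i * R.nw w) := by group
      rw [h2, hcell, nw_cons]
      group

theorem mem_lev {J : Finset (Fin R.r)} {i : Fin R.r} (hi : i ∈ J) : R.a i ∈ R.lev J :=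
  ⟨R.mem i, Submodule.subset_span ⟨i, hi, rfl⟩⟩

theorem neg_mem_lev {J : Finset (Fin R.r)} {i : Fin R.r} (hi : i ∈ J) : -R.a i ∈ R.lev J :=
  ⟨R.neg_a_mem i, Submodule.neg_mem _ (Submodule.subset_span ⟨i, hi, rfl⟩)⟩

theorem T_le_PJ (J : Finset (Fin R.r)) : R.T ≤ R.PJ J := le_sup_left

theorem X_le_PJ {J : Finset (Fin R.r)} {b : R.E} (hb : b ∈ R.pos ∪ R.lev J) : R.X b ≤ R.PJ J :=
  (R.X_le_gp hb).trans le_sup_right

theorem B_le_PJ (J : Finset (Fin R.r)) : R.B ≤ R.PJ J :=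
  sup_le (T_le_PJ R J) ((R.gp_mono Set.subset_union_left).trans le_sup_right)

theorem n_mem_PJ {J : Finset (Fin R.r)} {i : Fin R.r} (hi : i ∈ J) : R.n i ∈ R.PJ J := by
  have h1 : R.X (R.a i) ⊔ R.X (-R.a i) ≤ R.PJ J :=
    sup_le (X_le_PJ R (Or.inr (mem_lev R hi))) (X_le_PJ R (Or.inr (neg_mem_lev R hi)))
  exact h1 (R.nmem i)

theorem nw_mem_PJ {J : Finset (Fin R.r)} {w : List (Fin R.r)} (hw : ∀ i ∈ w, i ∈ J) :
    R.nw w ∈ R.PJ J := by
  induction w with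
  | nil => exact one_mem _
  | cons i w ih =>
    rw [nw_cons]
    exact mul_mem (n_mem_PJ R (hw i List.mem_cons_self))
      (ih fun j hj => hw j (List.mem_cons_of_mem _ hj))

/-- the cells of `J` -/
def Om (J : Finset (Fin R.r)) : Set G :=
  {g | ∃ w : List (Fin R.r), (∀ i ∈ w, i ∈ J) ∧ ∃ b ∈ R.B, ∃ b' ∈ R.B, g = b * R.nw w * b'}

theorem Om_B {J : Finset (Fin R.r)} {b g : G} (hb : b ∈ R.B) (hg : g ∈ Om R J) :
    b * g ∈ Om R J := by
  obtain ⟨w, hw, c, hc, d, hd, rfl⟩ := hg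
  exact ⟨w, hw, b * c, mul_mem hb hc, d, hd, by group⟩

theorem Om_n (hpel : PelStmt) {J : Finset (Fin R.r)} {i : Fin R.r} (hi : i ∈ J) {g : G}
    (hg : g ∈ Om R J) : R.n i * g ∈ Om R J := by
  obtain ⟨w, hw, b, hb, b', hb', rfl⟩ := hg
  obtain ⟨c, hc, d, hd, h | ⟨-, h⟩⟩ := cell_mul R hpel i w b hb
  · refine ⟨i :: w, ?_, c, hc, d * b', mul_mem hd hb', ?_⟩
    · intro j hj
      rcases List.mem_cons.mp hj with rfl | hj
      · exact hi
      · exact hw j hj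
    · have h1 : R.n i * (b * R.nw w * b') = (R.n i * b * R.nw w) * b' := by group
      rw [h1, h]
      group
  · refine ⟨w, hw, c, hc, d * b', mul_mem hd hb', ?_⟩
    have h1 : R.n i * (b * R.nw w * b') = (R.n i * b * R.nw w) * b' := by group
    rw [h1, h]
    group

theorem Om_n_inv (hpel : PelStmt) {J : Finset (Fin R.r)} {i : Fin R.r} (hi : i ∈ J) {g : G}
    (hg : g ∈ Om R J) : (R.n i)⁻¹ * g ∈ Om R J := by
  have h1 : (R.n i)⁻¹ * g = (R.n i * R.n i)⁻¹ * (R.n i * g) := by group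
  rw [h1]
  exact Om_B R (R.T_le_B (R.T.inv_mem (R.nn i))) (Om_n R hpel hi hg)

/-- the generators -/
def Gn (J : Finset (Fin R.r)) : Set G := (R.B : Set G) ∪ {g | ∃ i ∈ J, g = R.n i}

theorem closure_Om (hpel : PelStmt) {J : Finset (Fin R.r)} {g : G}
    (hg : g ∈ Subgroup.closure (Gn R J)) : g ∈ Om R J := by
  induction hg using Subgroup.closure_induction_left with
  | one => exact ⟨[], by simp, 1, one_mem _, 1, one_mem _, by simp⟩
  | mul_left x hx y _ hy =>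
    rcases hx with hx | ⟨i, hi, rfl⟩
    · exact Om_B R hx hy
    · exact Om_n R hpel hi hy
  | inv_mul_cancel x hx y _ hy =>
    rcases hx with hx | ⟨i, hi, rfl⟩
    · exact Om_B R (R.B.inv_mem hx) hy
    · exact Om_n_inv R hpel hi hy

theorem nw_mem_closure {J : Finset (Fin R.r)} {w : List (Fin R.r)} (hw : ∀ i ∈ w, i ∈ J) :
    R.nw w ∈ Subgroup.closure (Gn R J) := by
  induction w with
  | nil => exact one_mem _
  | cons i w ih =>
    rw [nw_cons]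
    exact mul_mem (Subgroup.subset_closure (Or.inr ⟨i, hw i List.mem_cons_self, rfl⟩))
      (ih fun j hj => hw j (List.mem_cons_of_mem _ hj))

/-- the negative of a root is a root -/
theorem neg_mem_Phi (horb : OrbStmt) {b : R.E} (hb : b ∈ R.Φ) : -b ∈ R.Φ := by
  obtain ⟨w, i, c, -, rfl, hc⟩ := horb ℓ G R b hb
  have h1 : -(c • R.sw w (R.a i)) = R.sw w (R.s i (c • R.a i)) := by
    rw [s_smul, s_self, smul_neg, sw_neg, sw_smul]
  rw [h1]
  exact R.sw_mem (R.s_mem hc)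

theorem PJ_le (hlng : LngStmt) (horb : OrbStmt) (J : Finset (Fin R.r)) :
    R.PJ J ≤ Subgroup.closure (Gn R J) := by
  have hB : R.B ≤ Subgroup.closure (Gn R J) := fun x hx => Subgroup.subset_closure (Or.inl hx)
  refine sup_le (R.T_le_B.trans hB) (R.gp_le ?_)
  have hpos : ∀ b ∈ R.pos, R.X b ≤ Subgroup.closure (Gn R J) := fun b hb =>
    ((R.X_le_U hb).trans R.U_le_B).trans hB
  rintro b (hb | hb)
  · exact hpos b hb
  · rcases R.pos_or_neg hb.1 with hp | hn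
    · exact hpos b hp
    · obtain ⟨-, w, hw, hwb⟩ := hlng ℓ G R J
      have h1 : -b ∈ R.pos ∩ R.lev J :=
        ⟨⟨neg_mem_Phi R horb hb.1, hn.2⟩, neg_mem_Phi R horb hb.1, Submodule.neg_mem _ hb.2⟩
      have h2 := hwb _ h1
      have h3 : R.sw w b ∈ R.pos := by
        refine ⟨R.sw_mem hb.1, ?_⟩
        have h4 := h2.2
        rwa [sw_neg, neg_neg] at h4
      intro x hx
      have h5 : R.nw w * x * (R.nw w)⁻¹ ∈ Subgroup.closure (Gn R J) :=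
        hpos _ h3 ((R.X_nw hb.1).mpr hx)
      have h6 := nw_mem_closure R hw
      have h7 := mul_mem (mul_mem (inv_mem h6) h5) h6
      have h8 : (R.nw w)⁻¹ * (R.nw w * x * (R.nw w)⁻¹) * R.nw w = x := by group
      rwa [h8] at h7

theorem nn_span {v : R.E} (h : Nn R.a v) :
    v ∈ Submodule.span ℝ (R.a '' ((Finset.univ : Finset (Fin R.r)) : Set (Fin R.r))) := by
  obtain ⟨k, -, rfl⟩ := h
  exact Submodule.sum_mem _ fun i _ =>
    Submodule.smul_mem _ _ (Submodule.subset_span ⟨i, by simp, rfl⟩)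

/-- BRU. -/
theorem bru (hlng : LngStmt) (horb : OrbStmt) (hdsc : DscStmt) (hpel : PelStmt)
    (hfac : FacStmt) : BruhStmt := by
  intro ℓ G _ R
  refine ⟨fun J w hw => nw_mem_PJ R hw, fun J g hg => closure_Om R hpel (PJ_le R hlng horb J hg),
    ?_, ?_, fun i w => cell_mul R hpel i w, ?_⟩
  · rw [eq_top_iff, ← R.gen]
    refine sup_le (T_le_PJ R _) (iSup₂_le fun b hb => X_le_PJ R (Or.inr ⟨hb, ?_⟩))
    rcases R.sgn b hb with h | h
    · exact nn_span R h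
    · have h1 := Submodule.neg_mem _ (nn_span R h)
      rwa [neg_neg] at h1
  · have h1 : R.lev ∅ = ∅ := by
      ext b
      constructor
      · rintro ⟨hb, hs⟩
        rw [Finset.coe_empty, Set.image_empty, Submodule.span_empty, Submodule.mem_bot] at hs
        exact R.ne0 b hb hs
      · intro h
        exact absurd h (Set.notMem_empty _)
    unfold PJ B U
    rw [h1, Set.union_empty]
  · rintro v w ⟨b, hb, b', hb', hvw⟩
    by_contra hcon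
    push Not at hcon
    obtain ⟨x₀, hx₀⟩ := hcon
    obtain ⟨f1, f2, f3, -, -⟩ := hfac ℓ G R w
    obtain ⟨u₁, hu₁, t₁, ht₁, rfl⟩ := R.mem_B.mp hb
    obtain ⟨x₁, hx₁, y₁, hy₁, huxy⟩ := f3 u₁ hu₁
    -- `(nw w)⁻¹ u₁⁻¹ nw v ∈ B`
    have hc : (R.nw w)⁻¹ * u₁⁻¹ * R.nw v ∈ R.B := by
      have h1 : (R.nw w)⁻¹ * u₁⁻¹ * R.nw v = ((R.nw w)⁻¹ * t₁ * R.nw w) * b' := by
        rw [hvw]
        group
      rw [h1]
      exact mul_mem (R.T_le_B (T_inv_nw R ht₁)) hb'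
    have hU : (R.nw w)⁻¹ * y₁ * R.nw w ∈ R.U := ((f2 y₁).mpr hy₁).2
    have hV : (R.nw w)⁻¹ * x₁ * R.nw w ∈ R.V := ((f1 x₁).mpr hx₁).2
    set m := (R.nw w)⁻¹ * R.nw v with hm
    have hb'' : ((R.nw w)⁻¹ * x₁ * R.nw w)⁻¹ * m ∈ R.B := by
      have h1 : ((R.nw w)⁻¹ * x₁ * R.nw w)⁻¹ * m =
          ((R.nw w)⁻¹ * y₁ * R.nw w) * ((R.nw w)⁻¹ * u₁⁻¹ * R.nw v) := by
        rw [huxy, hm]
        group
      rw [h1]
      exact mul_mem (R.U_le_B hU) hc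
    obtain ⟨⟨i, hi⟩, -⟩ := hdsc ℓ G R (w.reverse ++ v) ⟨x₀, fun h => hx₀ (by
      rw [sw_append] at h
      have h1 := congrArg (R.sw w) h
      rwa [R.sw_sw_reverse] at h1)⟩
    apply R.nt i
    rw [eq_bot_iff]
    intro z hz
    rw [Subgroup.mem_bot]
    have h2 : m * z * m⁻¹ ∈ R.V := by
      have h3 : R.nw v * z * (R.nw v)⁻¹ ∈ R.X (R.sw v (R.a i)) := (R.X_nw (R.mem i)).mpr hz
      have h4 := X_inv_nw R (w := w) (R.sw_mem (w := v) (R.mem i)) h3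
      rw [← sw_append] at h4
      have h5 : (R.nw w)⁻¹ * (R.nw v * z * (R.nw v)⁻¹) * R.nw w = m * z * m⁻¹ := by
        rw [hm]
        group
      rw [h5] at h4
      exact R.X_le_V hi h4
    set q := (R.nw w)⁻¹ * x₁ * R.nw w with hq
    have h6 : (q⁻¹ * m) * z * (q⁻¹ * m)⁻¹ ∈ R.U := R.B_U hb'' (R.X_le_U (R.a_pos i) hz)
    have h7 : (q⁻¹ * m) * z * (q⁻¹ * m)⁻¹ = q⁻¹ * (m * z * m⁻¹) * q⁻¹⁻¹ := by group
    have h8 : (q⁻¹ * m) * z * (q⁻¹ * m)⁻¹ ∈ R.V := by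
      rw [h7]
      exact mul_mem (mul_mem (inv_mem hV) h2) (inv_mem (inv_mem hV))
    have h9 : (q⁻¹ * m) * z * (q⁻¹ * m)⁻¹ ∈ R.U ⊓ R.V := ⟨h6, h8⟩
    rw [R.U_inf_V, Subgroup.mem_bot] at h9
    have h10 : z = (q⁻¹ * m)⁻¹ * ((q⁻¹ * m) * z * (q⁻¹ * m)⁻¹) * (q⁻¹ * m) := by group
    rw [h10, h9]
    group

end Pool.Agent.PP.X1.H55
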